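import Pool.Agent.H429R4.PO.Perm

/-!
# Algorithms for the permanent have exponentially many products up to relabeling

An algorithm (`Algo`) over a commutative ring `K` computes products of two factors, each of which is
a linear combination of `1`, the entries of the matrix and the earlier products; linear operations
are free and are not counted. This covers arithmetic circuits, in particular weakly skew circuits:
the products are the multiplication gates. For a set `A` of permutations of the rows and columns,
`C.products A` is the set of all transforms `{f L, f R}` of the unordered pairs of the two factors
`L`, `R` of the products under the members `f` of `A`.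

We show that every algorithm that computes the permanent of `n × n` matrices, over any nontrivial
commutative ring in which `2` is not a zero divisor, has `2 ^ (Ω(n))` different products up to an
abelian group of permutations: Klein's four-groups acting on disjoint quadruples of rows and the
swaps of disjoint pairs of columns. No symmetry of the algorithm is assumed.
-/

set_option autoImplicit false

namespace Pool.Agent.Results.MP_35c45d_lc.FewProducts

open Pool.Agent.H30R2.PS (Four)
open Pool.Agent.H429R4.FW (blockMoves)
open Pool.Agent.H429R4.PO

/-- **Exponentially many products up to relabeling.** -/
theorem result {K : Type} [CommRing K] [Nontrivial K] (hK : ∀ y : K, 2 * y = 0 → y = 0)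
    {n w : ℕ} (hn : 8 * w ≤ n) (ρ : Fin (2 * w) × Four ↪ Fin n)
    (κ : Fin (3 * w) × ZMod 2 ↪ Fin n) (G : Type) [Finite G]
    (C : Algo (Matrix (Fin n) (Fin n) K) K G (entryFns n K))
    (hC : C.Computes fun M => M.permanent) :
    2 ^ (w / 3200) ≤ 2 * (C.products (blockMoves K ρ κ)).ncard + 8 :=
  perm_products hK hn ρ κ C hC

end Pool.Agent.Results.MP_35c45d_lc.FewProducts
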