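import Pool.Agent.H53R4.Dc

set_option autoImplicit false

/-!
# Determinantal representations of the permanent on affine subspaces

Definitions: `genY` is in `Pool.Agent.H53R4.Restr`, `RepOn` in `Pool.Agent.H53R4.Dc`.
-/

namespace Pool.Agent.Results.MP_35c45d_lc.RepresentationsOnSubspaces

open Module MvPolynomial Pool.Agent.H53R4

/-- (1) Let `q ≥ 1` and let `A₀ + V` be an affine subspace of codimension at most `n - q` of the
`n × n` matrices over a field of characteristic zero. If `B` is an `N × N` matrix of polynomials of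
degree at most `1` with `det B(Z) = per Z` for all `Z` in `A₀ + V`, then `N ≥ q² - 4 q`.
(2) Over an infinite field, the permanents have affine determinantal representations of polynomial
size if and only if there are constants `c, e` such that for every `m ≥ 1` there are
`n ≤ m ^ e + e` and an affine subspace of codimension at most `n - m` on which the `n × n` permanent
has an affine determinantal representation of size at most `c m ^ c + c`.
(3) There are subspaces of codimension `n` on which the `n × n` permanent has such a representation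
of size `1`. -/
theorem result :
    (∀ (K : Type) [Field K] [CharZero K] (n q N : ℕ) (A₀ : Matrix (Fin n) (Fin n) K)
      (V : Submodule K (Matrix (Fin n) (Fin n) K))
      (B : Matrix (Fin N) (Fin N) (MvPolynomial (Fin n × Fin n) K)), 1 ≤ q →
      n ^ 2 + q ≤ finrank K V + n → RepOn A₀ V B → q ^ 2 ≤ N + 4 * q) ∧
    (∀ (K : Type) [Field K] [Infinite K],
      (∃ c : ℕ, ∀ m : ℕ, ∃ N : ℕ, N ≤ c * m ^ c + c ∧
        ∃ B : Matrix (Fin N) (Fin N) (MvPolynomial (Fin m × Fin m) K),
          (∀ i j, (B i j).totalDegree ≤ 1) ∧ B.det = (genY K m).permanent) ↔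
      (∃ c e : ℕ, ∀ m : ℕ, 1 ≤ m → ∃ n : ℕ, n ≤ m ^ e + e ∧
        ∃ (A₀ : Matrix (Fin n) (Fin n) K) (V : Submodule K (Matrix (Fin n) (Fin n) K)),
          n ^ 2 + m ≤ finrank K V + n ∧ ∃ N : ℕ, N ≤ c * m ^ c + c ∧
            ∃ B : Matrix (Fin N) (Fin N) (MvPolynomial (Fin n × Fin n) K), RepOn A₀ V B)) ∧
    (∀ (K : Type) [Field K] (n : ℕ), 1 ≤ n →
      ∃ V : Submodule K (Matrix (Fin n) (Fin n) K), n ^ 2 ≤ finrank K V + n ∧
        ∃ B : Matrix (Fin 1) (Fin 1) (MvPolynomial (Fin n × Fin n) K), RepOn 0 V B) :=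
  ⟨fun _ _ _ _ _ _ A₀ V _ hq hdim hB => rep_lower hq A₀ V hdim hB,
    fun K _ _ => vpws_iff K, fun K _ n hn => by
      obtain ⟨V, hV, h0⟩ := exists_zero_subspace K n hn
      refine ⟨V, hV, 0, fun i j => by simp, fun Z hZ => ?_⟩
      rw [sub_zero] at hZ
      rw [h0 Z hZ]
      simp⟩

end Pool.Agent.Results.MP_35c45d_lc.RepresentationsOnSubspaces
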