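import Mathlib
import Pool.Agent.H53R6.Tree

/-!
# Weakly skew circuits for multiples of the permanent, and for their limits
-/

set_option autoImplicit false

namespace Pool.Agent.Results.MP_35c45d_lc.WeaklySkewMultiples

open MvPolynomial Pool.Agent.H567.Nec Pool.Agent.H53R6

universe u

/-- **Weakly skew circuits and all multiples of the permanent.**  Let `K` be a field of
characteristic zero.

* If a weakly skew circuit over `K` has at some node a nonzero polynomial which vanishes at all
  `m × m` matrices over `K` with permanent zero (for example a nonzero multiple of the permanent,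
  of any degree), then it has at least `(7/10 - o(1)) m ^ 3 / log₂ m` gates.
* The same bound holds for weakly skew circuits over `K(ε)` (`RatFunc K`) with a node whose
  polynomial has coefficients defined at `ε = 0` and tends, for `ε → 0`, to a polynomial `g ≠ 0`
  over `K` which vanishes at all `m × m` matrices over `K` with permanent zero. -/
theorem result {K : Type u} [Field K] [CharZero K] (m : ℕ) :
    (∀ (Φ : Circuit K (Fin m × Fin m)), Φ.WeaklySkew → ∀ o : Fin Φ.N, Φ.value o ≠ 0 →
      (∀ X : Matrix (Fin m) (Fin m) K, X.permanent = 0 →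
        eval (fun p => X p.1 p.2) (Φ.value o) = 0) →
      m * (m - 2 * Nat.clog 2 m) * (7 * (m - 2 * Nat.clog 2 m) - 9)
        ≤ 10 * Nat.clog 2 m * (Φ.size + 1)) ∧
    (∀ g : MvPolynomial (Fin m × Fin m) K, g ≠ 0 →
      (∀ X : Matrix (Fin m) (Fin m) K, X.permanent = 0 → eval (fun p => X p.1 p.2) g = 0) →
      ∀ Φ : Circuit (RatFunc K) (Fin m × Fin m), Φ.WeaklySkew → ∀ o : Fin Φ.N,
      (∀ d : Fin m × Fin m →₀ ℕ, ((Φ.value o).coeff d).denom.eval 0 ≠ 0 ∧
        RatFunc.eval (RingHom.id K) 0 ((Φ.value o).coeff d) = g.coeff d) →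
      m * (m - 2 * Nat.clog 2 m) * (7 * (m - 2 * Nat.clog 2 m) - 9)
        ≤ 10 * Nat.clog 2 m * (Φ.size + 1)) := by
  have hvan : ∀ g : MvPolynomial (Fin m × Fin m) K,
      (∀ X : Matrix (Fin m) (Fin m) K, X.permanent = 0 → eval (fun p => X p.1 p.2) g = 0) →
      VanishesWithPer g := fun g h X hX => h X hX
  refine ⟨?_, ?_⟩
  · intro Φ hΦ o ho hv
    apply count_skew
    intro ℓ n' hm hn hn0 r c hr hc T hT
    obtain ⟨P, h1, h2, h3⟩ := exists_jets_vanish m ℓ n' hm hn hn0 r c hr hc (Φ.value o) ho
      (hvan _ hv).van T hT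
    exact local_skew Φ hΦ o T n' hn0 P h1 h2 h3
  · intro g hg hv Φ hΦ o hF
    apply count_skew
    intro ℓ n' hm hn hn0 r c hr hc T hT
    obtain ⟨P, h1, h2, h3⟩ := exists_jets_border m ℓ n' hm hn hn0 r c hr hc g hg (hvan _ hv).van
      (Φ.value o) hF T hT
    exact local_skew Φ hΦ o T n' hn0 P h1 h2 h3

end Pool.Agent.Results.MP_35c45d_lc.WeaklySkewMultiples
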